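import Pool.Agent.helper20.VVO.Spec

/-!
# Project vvo (MP_069684_lc), row FIN: the theorem
-/

set_option autoImplicit false

open Filter Topology

namespace Pool.Agent.VVO

open Pool.Agent.PB Pool.Agent.ISO Pool.Agent.ISA

theorem FIN_pp (L : Lang) (h : InPPoly L) : InNPPoly L := by
  obtain ⟨c, hc⟩ := h
  refine ⟨c, fun n => ⟨0, Nat.zero_le _, L n, hc n, fun x => ?_⟩⟩
  have h1 : ∀ y : Fin 0 → Bool, (Fin.append x y : Fin (n + 0) → Bool) = x := by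
    intro y
    rw [Fin.append_right_nil]
    · rfl
    · rfl
  constructor
  · intro h2
    refine ⟨fun i => i.elim0, ?_⟩
    rw [h1]
    exact h2
  · rintro ⟨y, hy⟩
    rw [h1] at hy
    exact hy

theorem FIN_hpos (j : ℕ) (hj : 1 ≤ j) : (0 : ℝ) < (harmonic j : ℝ) := by
  have h1 : (0 : ℚ) < harmonic j := harmonic_pos (by omega)
  exact_mod_cast h1

theorem FIN_two (ε H p : ℝ) (M : ℕ) (hε : 0 < ε) (hH : 0 < H) (h : (1 + ε) * H ≤ p * Real.log M) : 2 ≤ M := by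
  by_contra h2
  have h3 : M = 0 ∨ M = 1 := by omega
  have h4 : Real.log (M : ℝ) = 0 := by
    rcases h3 with h3 | h3 <;> simp [h3]
  rw [h4, mul_zero] at h
  have h5 : 0 < (1 + ε) * H := by positivity
  linarith

theorem FIN_cc (L : Lang) : PB.compl (PB.compl L) = L := by
  funext n x
  simp [PB.compl]

theorem FIN_dn (hNCL : NCL_stmt) (m : ℕ → ℕ) (A : ℕ → Set ℕ) (p : ℕ → ℝ) (h : AllPrun m A p) : AllPrunN m A p := by
  intro w V c hV
  obtain ⟨c', hc'⟩ := h w V c hV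
  refine ⟨c', fun n => ?_⟩
  obtain ⟨k, W, h1, h2, h3, h4, h5⟩ := hc' n
  exact ⟨k, W, h1, h2, fun i => hNCL.1 _ _ _ (h3 i), h4, h5⟩

theorem FIN (hDPB : DPB_stmt) (hNPB : NPB_stmt) (hVVN : VVN_stmt) (hVVA : ISO.VVA_stmt) (hLEX : ISA.LEX_stmt) (hLXN : LXN_stmt) (hUPR : UPR_stmt) (hNCL : NCL_stmt) (hCIR : ISO.CIR_stmt) : FIN_stmt := by
  have _ := hCIR
  refine ⟨?_, ?_, hUPR⟩
  · intro ε j c m p hε hj hp hev
    constructor
    · intro hall L
      refine ⟨FIN_pp L, ?_⟩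
      have hPU : PU := by
        refine hDPB ε j c m (fun n => min (m n) (n ^ c)) p hε hj (fun n => min_le_left _ _) ?_ hall
        filter_upwards [hev] with n hn
        exact ⟨FIN_two ε _ (p n) _ hε (FIN_hpos j hj) hn, min_le_right _ _, hn⟩
      exact hVVA hPU L
    · intro hL
      exact hLEX (fun A hA => (hL A).2 hA) m _ p (fun n => ⟨le_refl 1, hj⟩) hp
  · intro ε j m p hε hε1 hj hp hev
    refine ⟨FIN_dn hNCL m _ p, ?_, ?_⟩
    · intro hall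
      have hPUN : PUN := by
        refine hNPB ε j m (fun n => min (m n) (2 ^ ⌊(n : ℝ) ^ (1 - ε)⌋₊)) p hε hε1 hj (fun n => min_le_left _ _) ?_ hall
        filter_upwards [hev] with n hn
        refine ⟨FIN_two ε _ (p n) _ hε (FIN_hpos j hj) hn, ?_, hn⟩
        have h2 : 2 ≤ min (m n) (2 ^ ⌊(n : ℝ) ^ (1 - ε)⌋₊) := FIN_two ε _ (p n) _ hε (FIN_hpos j hj) hn
        have h3 : Real.log ((min (m n) (2 ^ ⌊(n : ℝ) ^ (1 - ε)⌋₊) : ℕ) : ℝ) ≤ Real.log ((2 ^ ⌊(n : ℝ) ^ (1 - ε)⌋₊ : ℕ) : ℝ) := by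
          refine Real.log_le_log ?_ ?_
          · exact_mod_cast (show 0 < min (m n) (2 ^ ⌊(n : ℝ) ^ (1 - ε)⌋₊) by omega)
          · exact_mod_cast min_le_right _ _
        refine h3.trans ?_
        push_cast
        rw [Real.log_pow]
        have h4 : Real.log 2 ≤ 1 := by
          have := Real.log_two_lt_d9
          linarith
        have h5 : ((⌊(n : ℝ) ^ (1 - ε)⌋₊ : ℕ) : ℝ) ≤ (n : ℝ) ^ (1 - ε) := Nat.floor_le (by positivity)
        have h6 : (0 : ℝ) ≤ ((⌊(n : ℝ) ^ (1 - ε)⌋₊ : ℕ) : ℝ) := Nat.cast_nonneg _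
        calc ((⌊(n : ℝ) ^ (1 - ε)⌋₊ : ℕ) : ℝ) * Real.log 2 ≤ ((⌊(n : ℝ) ^ (1 - ε)⌋₊ : ℕ) : ℝ) * 1 :=
              mul_le_mul_of_nonneg_left h4 h6
          _ ≤ (n : ℝ) ^ (1 - ε) := by rw [mul_one]; exact h5
      have h1 := hVVN hPUN
      intro L
      refine ⟨h1 L, fun hL => ?_⟩
      have h2 := h1 _ hL
      rw [FIN_cc] at h2
      exact h2
    · intro hL
      exact hLXN (fun L h => (hL L).1 h) m _ p (fun n => ⟨le_refl 1, hj⟩) hp

end Pool.Agent.VVO
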